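import Pool.Agent.helper44.AX.SpecA

/-!
# Project AX (MP_2e0e07_nt): row CLO
-/

set_option autoImplicit false

namespace Pool.Agent.AX

open Matrix Polynomial Topology Filter Pool.Agent.GO Pool.Agent.AR Pool.Agent.RG Pool.Agent.HZ
  Pool.Agent.DS Pool.Agent.FLD MeasureTheory NumberField

/-- the coefficients of the characteristic polynomial are continuous -/
theorem CLO_coeff {R : Type*} [CommRing R] [TopologicalSpace R] [IsTopologicalRing R] {m : ℕ}
    (k : ℕ) : Continuous fun A : Matrix (Fin m) (Fin m) R => A.charpoly.coeff k := by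
  have h1 : (fun A : Matrix (Fin m) (Fin m) R => A.charpoly.coeff k) = fun A =>
      MvPolynomial.eval (fun x : Fin m × Fin m => A x.1 x.2)
        (MvPolynomial.map (Int.castRingHom R) ((Matrix.charpoly.univ ℤ (Fin m)).coeff k)) := by
    funext A
    have h2 := Matrix.charpoly.univ_coeff_eval₂Hom (n := Fin m) (Int.castRingHom R)
      (fun x : Fin m × Fin m => A x.1 x.2) k
    rw [MvPolynomial.coe_eval₂Hom, MvPolynomial.eval₂_eq_eval_map] at h2
    rw [h2]
    rfl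
  rw [h1]
  refine (MvPolynomial.continuous_eval _).comp ?_
  exact continuous_pi fun x => (continuous_apply x.2).comp (continuous_apply x.1)

theorem CLO_det {Γ F : Type*} [Group Γ] [Field F] (ρ : Γ →* Matrix (Fin 2) (Fin 2) F) (g : Γ) :
    (ρ g).det ≠ 0 := by
  intro h0
  have h2 := congrArg Matrix.det (hom_mul_inv' ρ g)
  rw [Matrix.det_mul, h0, zero_mul, Matrix.det_one] at h2
  exact zero_ne_one h2

theorem CLO_tt {Γ F : Type*} [Group Γ] [TopologicalSpace Γ] [NormedField F]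
    (ρ : Γ →* Matrix (Fin 2) (Fin 2) F) (hρ : Continuous ρ) : Continuous (tt ρ) :=
  ((Continuous.matrix_trace hρ).pow 2).div (Continuous.matrix_det hρ) (CLO_det ρ)

theorem CLO_near {Γ Place F : Type} [Group Γ] [TopologicalSpace Γ]
    (frob : Place → Set Γ) [NormedField F] {r : ℕ} {n : Fin r → ℕ}
    (V : (q : ℕ) → [Fact q.Prime] → (i : Fin r) → Γ →* Matrix (Fin (n i)) (Fin (n i)) ℤ_[q])
    (ρ : Γ →* Matrix (Fin 2) (Fin 2) F)
    (hV : ∀ (q : ℕ) [Fact q.Prime] (i : Fin r), Continuous (V q i)) (hρ : Continuous ρ)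
    (S T : Set Place) (M : ℕ) (hM : 0 < M) (ε : ℝ) (hε : 0 < ε)
    (g : Γ) (hg : g ∈ closure {s | ∃ v ∈ S, v ∉ T ∧ s ∈ frob v}) :
    ∃ v ∈ S, v ∉ T ∧ ∃ s ∈ frob v, ‖tt ρ s - tt ρ g‖ < ε ∧
      ∀ (q : ℕ) [Fact q.Prime], q ∣ M → ∀ (i : Fin r) (k : ℕ),
        (q : ℤ_[q]) ^ M.factorization q ∣
          (V q i s).charpoly.coeff k - (V q i g).charpoly.coeff k := by
  classical
  have h1 : ∀ᶠ s in nhds g, ‖tt ρ s - tt ρ g‖ < ε := by
    have h2 : Continuous fun s => ‖tt ρ s - tt ρ g‖ := ((CLO_tt ρ hρ).sub continuous_const).norm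
    have h3 := h2.tendsto g
    simp only [sub_self, norm_zero] at h3
    exact h3.eventually_lt_const hε
  have h2 : ∀ᶠ s in nhds g, ∀ (q : {q // q ∈ M.primeFactors}) (hq : Fact q.1.Prime) (i : Fin r)
      (k : Fin (n i + 1)), (q.1 : ℤ_[q.1]) ^ M.factorization q.1 ∣
          (V q.1 i s).charpoly.coeff k - (V q.1 i g).charpoly.coeff k := by
    rw [Filter.eventually_all]
    intro q
    rw [Filter.eventually_all]
    intro hq
    rw [Filter.eventually_all]
    intro i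
    rw [Filter.eventually_all]
    intro k
    have hc : Continuous fun s => ‖(V q.1 i s).charpoly.coeff k - (V q.1 i g).charpoly.coeff k‖ :=
      (((CLO_coeff (k : ℕ)).comp (hV q.1 i)).sub continuous_const).norm
    have h3 := hc.tendsto g
    simp only [sub_self, norm_zero] at h3
    have hpos : (0 : ℝ) < (q.1 : ℝ) ^ (-(M.factorization q.1 : ℤ)) :=
      zpow_pos (by exact_mod_cast hq.out.pos) _
    refine (h3.eventually_lt_const hpos).mono ?_
    intro s hs
    have h4 := (PadicInt.norm_le_pow_iff_mem_span_pow _ _).mp hs.le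
    exact Ideal.mem_span_singleton.mp h4
  obtain ⟨s, ⟨v, hv, hvT, hs⟩, hs1, hs2⟩ :=
    ((mem_closure_iff_frequently.mp hg).and_eventually (h1.and h2)).exists
  refine ⟨v, hv, hvT, s, hs, hs1, ?_⟩
  intro q hq hqM i k
  by_cases hk : k < n i + 1
  · have h3 := hs2 ⟨q, Nat.mem_primeFactors.mpr ⟨hq.out, hqM, by omega⟩⟩ hq i ⟨k, hk⟩
    exact h3
  · have h3 : ∀ x : Γ, (V q i x).charpoly.coeff k = 0 := by
      intro x
      apply Polynomial.coeff_eq_zero_of_natDegree_lt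
      rw [Matrix.charpoly_natDegree_eq_dim, Fintype.card_fin]
      omega
    rw [h3, h3, sub_self]
    exact dvd_zero _

/-- congruences modulo all prime powers -/
theorem CLO_dvd (M : ℕ) (x : ℤ) (hM : 0 < M)
    (h : ∀ (q : ℕ) [Fact q.Prime], q ∣ M → (q : ℤ_[q]) ^ M.factorization q ∣ (x : ℤ_[q])) :
    (M : ℤ) ∣ x := by
  rcases eq_or_ne x 0 with rfl | hx
  · exact dvd_zero _
  rw [Int.natCast_dvd]
  have hx' : x.natAbs ≠ 0 := Int.natAbs_ne_zero.mpr hx
  rw [← Nat.factorization_prime_le_iff_dvd hM.ne' hx']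
  intro q hq
  by_cases hqM : q ∣ M
  · have hqf : Fact q.Prime := ⟨hq⟩
    have h1 := h q hqM
    have h2 : (q : ℤ) ^ M.factorization q ∣ x := by
      have h3 := (PadicInt.norm_int_le_pow_iff_dvd (p := q)).mp
        ((PadicInt.norm_le_pow_iff_mem_span_pow _ _).mpr (Ideal.mem_span_singleton.mpr h1))
      exact_mod_cast h3
    have h3 : q ^ M.factorization q ∣ x.natAbs := by
      rw [← Int.natCast_dvd]
      exact_mod_cast h2
    exact (hq.pow_dvd_iff_le_factorization hx').mp h3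
  · rw [Nat.factorization_eq_zero_of_not_dvd hqM]
    exact Nat.zero_le _

/-- the closures of the sets of Frobenius elements have an intersection of positive measure -/
theorem CLO_pos {Γ Place : Type} [TopologicalSpace Γ] [MeasurableSpace Γ]
    [BorelSpace Γ] (μ : Measure Γ) [IsFiniteMeasure μ] (frob : Place → Set Γ) (S : Set Place)
    (T : ℕ → Set Place) (hS : Positive μ frob S) (hT : ∀ m, (T m).Finite) (hmono : Monotone T) :
    μ (⋂ m, closure {s | ∃ v ∈ S, v ∉ T m ∧ s ∈ frob v}) ≠ 0 := by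
  obtain ⟨δ, hδ, h⟩ := hS
  have h1 : Antitone fun m => closure {s | ∃ v ∈ S, v ∉ T m ∧ s ∈ frob v} := by
    intro a b hab
    refine closure_mono ?_
    rintro s ⟨v, hv, hvT, hs⟩
    exact ⟨v, hv, fun hh => hvT (hmono hab hh), hs⟩
  have h2 := tendsto_measure_iInter_atTop (μ := μ)
    (fun m => (isClosed_closure (s := {s | ∃ v ∈ S, v ∉ T m ∧ s ∈ frob v})).nullMeasurableSet) h1
    ⟨0, measure_ne_top _ _⟩
  have h3 := ge_of_tendsto' h2 fun m => h (T m) (hT m)
  exact (hδ.trans_le h3).ne'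

theorem CLO_tv {Γ E F : Type*} [Group Γ] [Field E] [Field F] (ι : E →+* F)
    (ρ : Γ →* Matrix (Fin 2) (Fin 2) F) (s : Γ) (Q : E[X]) (h : (ρ s).charpoly = Q.map ι) :
    ι (Q.coeff 1 ^ 2 / Q.coeff 0) = tt ρ s := by
  have h1 : (ρ s).charpoly.coeff 1 = -(ρ s).trace := by
    rw [Matrix.charpoly_fin_two]
    simp [coeff_C]
  have h0 : (ρ s).charpoly.coeff 0 = (ρ s).det := by
    rw [Matrix.charpoly_fin_two]
    simp
  rw [h, Polynomial.coeff_map] at h1 h0
  unfold tt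
  rw [map_div₀, map_pow, h1, h0, neg_pow_two]

theorem CLO : CLO_stmt := by
  intro Γ Place E F _ _ _ _ _ _ μ _ _ _ frob r n P Q ι V ρ hV hρ hPV hQ hdet
  classical
  obtain ⟨S, D, hS, hD⟩ := hdet
  choose M hM0 hM using fun m : ℕ => hD (1 / ((m : ℝ) + 1)) Nat.one_div_pos_of_nat
  obtain ⟨Tρ, hTρ, hTρ'⟩ := hQ
  choose TV hTV hTV' using hPV
  -- the bad places for the modulus M m
  let B : ℕ → Set Place := fun m => Tρ ∪ ⋃ (q : {q // q ∈ (M m).primeFactors}),
    @TV q.1 ⟨Nat.prime_of_mem_primeFactors q.2⟩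
  have hB : ∀ m, (B m).Finite := by
    intro m
    refine hTρ.union (Set.finite_iUnion fun q => ?_)
    exact @hTV q.1 ⟨Nat.prime_of_mem_primeFactors q.2⟩
  let T : ℕ → Set Place := fun m => ⋃ k : {k // k ∈ Finset.range (m + 1)}, B k.1
  have hT : ∀ m, (T m).Finite := fun m => Set.finite_iUnion fun k => hB k.1
  have hTmono : Monotone T := by
    intro a b hab v hv
    obtain ⟨k, hk⟩ := Set.mem_iUnion.mp hv
    exact Set.mem_iUnion.mpr ⟨⟨k.1, Finset.mem_range.mpr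
      (by have := Finset.mem_range.mp k.2; omega)⟩, hk⟩
  refine ⟨⋂ m, closure {s | ∃ v ∈ S, v ∉ T m ∧ s ∈ frob v}, D,
    isClosed_iInter fun _ => isClosed_closure, CLO_pos μ frob S T hS hT hTmono, ?_⟩
  intro g hg hgg
  by_contra hcon
  push Not at hcon
  -- the values of `V` agree
  have hVg : ∀ x y (q : ℕ) [Fact q.Prime] (i : Fin r), V q i (g x) = V q i (g y) := by
    intro x y q hq i
    have h1 := hgg x y
    unfold kerAll at h1
    rw [Subgroup.mem_iInf] at h1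
    have h2 := h1 q
    rw [Subgroup.mem_iInf] at h2
    have h3 := h2 hq
    unfold kerV at h3
    rw [Subgroup.mem_iInf] at h3
    have h4 : V q i ((g x)⁻¹ * g y) = 1 := h3 i
    calc V q i (g x) = V q i (g x) * V q i ((g x)⁻¹ * g y) := by rw [h4, mul_one]
      _ = V q i (g y) := by rw [← map_mul, mul_inv_cancel_left]
  have hkey : ∀ m : ℕ, ∃ x y, x ≠ y ∧ ‖tt ρ (g x) - tt ρ (g y)‖ ≤ 3 / ((m : ℝ) + 1) := by
    intro m
    have hε : (0 : ℝ) < 1 / ((m : ℝ) + 1) := Nat.one_div_pos_of_nat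
    have h1 : ∀ x, ∃ v ∈ S, v ∉ T m ∧ ∃ s ∈ frob v, ‖tt ρ s - tt ρ (g x)‖ < 1 / ((m : ℝ) + 1) ∧
        ∀ (q : ℕ) [Fact q.Prime], q ∣ M m → ∀ (i : Fin r) (k : ℕ),
          (q : ℤ_[q]) ^ (M m).factorization q ∣
            (V q i s).charpoly.coeff k - (V q i (g x)).charpoly.coeff k := fun x =>
      CLO_near frob V ρ hV hρ S (T m) (M m) (hM0 m) _ hε (g x) (Set.mem_iInter.mp (hg x) m)
    choose v hvS hvT s hs hs1 hs2 using h1
    have hvB : ∀ x, v x ∉ B m := fun x hx => hvT x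
      (Set.mem_iUnion.mpr ⟨⟨m, Finset.mem_range.mpr (by omega)⟩, hx⟩)
    have hvρ : ∀ x, v x ∉ Tρ := fun x hx => hvB x (Or.inl hx)
    have hdvd : ∀ a b i k, (M m : ℤ) ∣ (P i (v a)).coeff k - (P i (v b)).coeff k := by
      intro a b i k
      refine CLO_dvd (M m) _ (hM0 m) ?_
      intro q hq hqM
      have hmem : q ∈ (M m).primeFactors := Nat.mem_primeFactors.mpr ⟨hq.out, hqM, (hM0 m).ne'⟩
      have hvq : ∀ x, v x ∉ TV q := by
        intro x hx
        apply hvB x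
        exact Or.inr (Set.mem_iUnion.mpr ⟨⟨q, hmem⟩, hx⟩)
      have h3 : ∀ x, (((P i (v x)).coeff k : ℤ) : ℤ_[q]) = (V q i (s x)).charpoly.coeff k := by
        intro x
        rw [hTV' q (v x) (hvq x) (s x) (hs x) i, Polynomial.coeff_map]
        rfl
      have h4 : (((P i (v a)).coeff k - (P i (v b)).coeff k : ℤ) : ℤ_[q]) =
          ((V q i (s a)).charpoly.coeff k - (V q i (g a)).charpoly.coeff k) -
          ((V q i (s b)).charpoly.coeff k - (V q i (g b)).charpoly.coeff k) := by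
        rw [Int.cast_sub, h3, h3, hVg a b q i]
        ring
      rw [h4]
      exact dvd_sub (hs2 a q hqM i k) (hs2 b q hqM i k)
    obtain ⟨x, y, hxy, hxy2⟩ := hM m v hvS hdvd
    have hx : ∀ z, ι (tv Q (v z)) = tt ρ (s z) := fun z =>
      CLO_tv ι ρ (s z) (Q (v z)) (hTρ' (v z) (hvρ z) (s z) (hs z))
    rw [hx, hx] at hxy2
    refine ⟨x, y, hxy, ?_⟩
    have h5 : tt ρ (g x) - tt ρ (g y) = (tt ρ (s x) - tt ρ (s y)) - (tt ρ (s x) - tt ρ (g x)) +
        (tt ρ (s y) - tt ρ (g y)) := by ring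
    have h6 := hs1 x
    have h7 := hs1 y
    calc ‖tt ρ (g x) - tt ρ (g y)‖ ≤ ‖tt ρ (s x) - tt ρ (s y)‖ + ‖tt ρ (s x) - tt ρ (g x)‖ +
          ‖tt ρ (s y) - tt ρ (g y)‖ := by
          rw [h5]
          exact (norm_add_le _ _).trans (add_le_add_left (norm_sub_le _ _) _)
      _ ≤ 1 / ((m : ℝ) + 1) + 1 / ((m : ℝ) + 1) + 1 / ((m : ℝ) + 1) := by linarith
      _ = 3 / ((m : ℝ) + 1) := by ring
  -- the minimum of the distances
  choose x y hxy hlt using hkey
  obtain ⟨c, hc, hc'⟩ : ∃ c : ℝ, 0 < c ∧ ∀ a b, a ≠ b → c ≤ ‖tt ρ (g a) - tt ρ (g b)‖ := by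
    let W : Finset (Fin (D + 1) × Fin (D + 1)) := Finset.univ.filter fun z => z.1 ≠ z.2
    have hW : W.Nonempty := ⟨(x 0, y 0), Finset.mem_filter.mpr ⟨Finset.mem_univ _, hxy 0⟩⟩
    obtain ⟨z, hz, hz'⟩ := W.exists_min_image (fun z => ‖tt ρ (g z.1) - tt ρ (g z.2)‖) hW
    refine ⟨_, norm_pos_iff.mpr (sub_ne_zero.mpr (hcon z.1 z.2 (Finset.mem_filter.mp hz).2)), ?_⟩
    intro a b hab
    exact hz' (a, b) (Finset.mem_filter.mpr ⟨Finset.mem_univ _, hab⟩)
  obtain ⟨m, hm⟩ := exists_nat_gt (3 / c)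
  have h8 := (hc' (x m) (y m) (hxy m)).trans (hlt m)
  have h9 : (0 : ℝ) < (m : ℝ) + 1 := by positivity
  rw [le_div_iff₀ h9] at h8
  rw [div_lt_iff₀ hc] at hm
  nlinarith

end Pool.Agent.AX
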