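import Pool.Agent.helper64.AX.SpecD

/-!
# Project AX (MP_2e0e07_nt): row DCT (the count of the fixed points)
-/

set_option autoImplicit false

namespace Pool.Agent.AX

open Matrix

/-- the stabilisers of the points of an orbit have the same number of elements -/
theorem DCT_conj {Z : Type} (H : Subgroup (Equiv.Perm Z)) (z : Z) (h : Equiv.Perm Z) (hh : h ∈ H) :
    (St H (h z)).ncard = (St H z).ncard := by
  symm
  refine Set.ncard_congr (fun g _ => h * g * h⁻¹) ?_ ?_ ?_
  · rintro g ⟨hg, hgz⟩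
    refine ⟨H.mul_mem (H.mul_mem hh hg) (H.inv_mem hh), ?_⟩
    simp [hgz]
  · intro g g' _ _ hgg
    exact mul_left_cancel (mul_right_cancel hgg)
  · rintro g ⟨hg, hgz⟩
    refine ⟨h⁻¹ * g * h, ⟨H.mul_mem (H.mul_mem (H.inv_mem hh) hg) hh, ?_⟩, by group⟩
    rw [Equiv.Perm.mul_apply, Equiv.Perm.mul_apply, hgz]
    simp

/-- orbit and stabiliser -/
theorem DCT_orb {Z : Type} (H : Subgroup (Equiv.Perm Z)) (hf : (H : Set (Equiv.Perm Z)).Finite) (z : Z) :
    {w | ∃ h ∈ H, h z = w}.ncard * (St H z).ncard = Nat.card H := by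
  have : Finite H := hf
  have h1 := Nat.card_congr (MulAction.orbitProdStabilizerEquivGroup H z)
  rw [Nat.card_prod] at h1
  have h2 : {w | ∃ h ∈ H, h z = w} = MulAction.orbit H z := by
    ext w
    constructor
    · rintro ⟨h, hh, rfl⟩
      exact ⟨⟨h, hh⟩, rfl⟩
    · rintro ⟨⟨h, hh⟩, rfl⟩
      exact ⟨h, hh, rfl⟩
  have h3 : (St H z).ncard = Nat.card (MulAction.stabilizer H z) := by
    have h4 : St H z = ((MulAction.stabilizer H z).map H.subtype : Set (Equiv.Perm Z)) := by
      ext g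
      constructor
      · rintro ⟨hg, hgz⟩
        exact ⟨⟨g, hg⟩, hgz, rfl⟩
      · rintro ⟨⟨g', hg'⟩, hgz, rfl⟩
        exact ⟨hg', hgz⟩
    rw [h4, ← Nat.card_coe_set_eq]
    exact (Nat.card_congr ((MulAction.stabilizer H z).equivMapOfInjective H.subtype
      H.subtype_injective).toEquiv).symm
  rw [h2, h3, ← Nat.card_coe_set_eq]
  exact h1

theorem DCT : DCT_stmt := by
  intro p _ Z H q e N hF hq he hN hOf hOc hH hx
  classical
  obtain ⟨Hs, hHs⟩ : ∃ Hs : Finset (Equiv.Perm Z), ∀ h, h ∈ Hs ↔ h ∈ H :=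
    ⟨hF.fin.toFinset, fun h => by rw [Set.Finite.mem_toFinset]; rfl⟩
  have hcoe : (H : Set (Equiv.Perm Z)) = (Hs : Set (Equiv.Perm Z)) := by
    ext h
    simp [hHs]
  have hcH : Hs.card = N * (q * e) := by
    rw [← hH, ← Set.ncard_coe_finset, ← hcoe]
    rfl
  -- the fixed points of an element
  have hfix : ∀ h ∈ H, h ≠ 1 → {z | h z = z}.Finite := by
    intro h hh h1
    by_cases hp : PE p h
    · obtain ⟨z, hz⟩ := hF.one h hh h1 hp
      have : {y | h y = y} = {z} := by
        ext y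
        simpa using hz y
      rw [this]
      exact Set.finite_singleton z
    · obtain ⟨z, w, _, hz⟩ := hF.two h hh hp
      have : {y | h y = y} = {z, w} := by
        ext y
        simpa using hz y
      rw [this]
      exact (Set.finite_singleton w).insert z
  obtain ⟨Zf, hZf⟩ : ∃ Zf : Finset Z, ∀ z, z ∈ Zf ↔ ∃ h ∈ H, h ≠ 1 ∧ h z = z := by
    have hfin : (⋃ h ∈ ((Hs.erase 1 : Finset (Equiv.Perm Z)) : Set (Equiv.Perm Z)), {z | h z = z}).Finite := by
      refine Set.Finite.biUnion (Finset.finite_toSet _) ?_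
      intro h hh
      rw [Finset.mem_coe, Finset.mem_erase, hHs] at hh
      exact hfix h hh.2 hh.1
    refine ⟨hfin.toFinset, fun z => ?_⟩
    rw [Set.Finite.mem_toFinset]
    simp only [Set.mem_iUnion, Finset.mem_coe, Finset.mem_erase, hHs, Set.mem_ofPred_eq, exists_prop]
    constructor
    · rintro ⟨h, ⟨a, b⟩, c⟩
      exact ⟨h, b, a, c⟩
    · rintro ⟨h, b, a, c⟩
      exact ⟨h, ⟨a, b⟩, c⟩
  obtain ⟨Of, hOf'⟩ : ∃ Of : Finset Z, ∀ z, z ∈ Of ↔ z ∈ Om p H :=
    ⟨hOf.toFinset, fun z => Set.Finite.mem_toFinset _⟩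
  have hOcard : Of.card = N := by
    rw [← hOc, ← Set.ncard_coe_finset]
    congr 1
    ext z
    simp [hOf']
  have hOZ : Of ⊆ Zf := by
    intro z hz
    obtain ⟨h, hh, h1, _, h3⟩ := (hOf' z).mp hz
    exact (hZf z).mpr ⟨h, hh, h1, h3⟩
  -- stabilisers as finite sets
  have hst : ∀ z, (St H z).ncard = (Hs.filter fun h => h z = z).card := by
    intro z
    rw [← Set.ncard_coe_finset]
    congr 1
    ext h
    simp [St, hHs]
  have hst1 : ∀ z, ((Hs.erase 1).filter fun h => h z = z).card + 1 = (St H z).ncard := by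
    intro z
    rw [hst z, Finset.filter_erase]
    exact Finset.card_erase_add_one (Finset.mem_filter.mpr ⟨(hHs 1).mpr H.one_mem, rfl⟩)
  -- first count: the elements of p-power order
  obtain ⟨P, hP⟩ : ∃ P : Finset (Equiv.Perm Z), ∀ h, h ∈ P ↔ (h ∈ H ∧ h ≠ 1) ∧ PE p h :=
    ⟨(Hs.erase 1).filter fun h => PE p h, fun h => by
      rw [Finset.mem_filter, Finset.mem_erase, hHs]
      tauto⟩
  have hPcard : P.card = N * (q - 1) := by
    have h1 := Finset.sum_card_bipartiteAbove_eq_sum_card_bipartiteBelow (s := P) (t := Of)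
      (fun (h : Equiv.Perm Z) (z : Z) => h z = z)
    have h2 : ∀ h ∈ P, (Finset.bipartiteAbove (fun (h : Equiv.Perm Z) (z : Z) => h z = z) Of h).card = 1 := by
      intro h hh
      obtain ⟨⟨a, b⟩, c⟩ := (hP h).mp hh
      obtain ⟨z, hz⟩ := hF.one h a b c
      rw [Finset.card_eq_one]
      refine ⟨z, ?_⟩
      ext y
      rw [Finset.mem_bipartiteAbove, Finset.mem_singleton, hOf']
      constructor
      · rintro ⟨-, h5⟩
        exact (hz y).mp h5
      · intro h5
        have h6 := (hz y).mpr h5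
        exact ⟨⟨h, a, b, c, h6⟩, h6⟩
    have h3 : ∀ z ∈ Of, (Finset.bipartiteBelow (fun (h : Equiv.Perm Z) (z : Z) => h z = z) P z).card = q - 1 := by
      intro z hz
      have h4 := (hx z ((hOf' z).mp hz)).1
      have h5 : Us p H z = insert 1 ((Finset.bipartiteBelow (fun (h : Equiv.Perm Z) (z : Z) => h z = z) P z :
          Finset (Equiv.Perm Z)) : Set (Equiv.Perm Z)) := by
        ext h
        simp only [Us, Set.mem_ofPred_eq, Set.mem_insert_iff, Finset.mem_coe, Finset.mem_bipartiteBelow, hP]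
        constructor
        · rintro ⟨a, b, c⟩
          by_cases h1 : h = 1
          · exact Or.inl h1
          · exact Or.inr ⟨⟨⟨a, h1⟩, c⟩, b⟩
        · rintro (rfl | ⟨⟨⟨a, _⟩, c⟩, b⟩)
          · exact ⟨H.one_mem, rfl, 0, by simp⟩
          · exact ⟨a, b, c⟩
      rw [h5, Set.ncard_insert_of_notMem (by
        rw [Finset.mem_coe, Finset.mem_bipartiteBelow, hP]
        rintro ⟨⟨⟨_, h6⟩, _⟩, _⟩
        exact h6 rfl) (Finset.finite_toSet _), Set.ncard_coe_finset] at h4
      omega
    rw [Finset.sum_congr rfl h2, Finset.sum_congr rfl h3, Finset.sum_const, Finset.sum_const, hOcard] at h1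
    simpa using h1
  -- second count: all the elements
  have hmain : 2 * (N * (q * e)) = ∑ z ∈ Zf, ((Hs.erase 1).filter fun h => h z = z).card + N * (q - 1) + 2 := by
    have h1 := Finset.sum_card_bipartiteAbove_eq_sum_card_bipartiteBelow (s := Hs.erase 1) (t := Zf)
      (fun (h : Equiv.Perm Z) (z : Z) => h z = z)
    have h2 : ∑ z ∈ Zf, (Finset.bipartiteBelow (fun (h : Equiv.Perm Z) (z : Z) => h z = z) (Hs.erase 1) z).card =
        ∑ z ∈ Zf, ((Hs.erase 1).filter fun h => h z = z).card := rfl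
    rw [← h2, ← h1]
    have h3 : ∀ h ∈ Hs.erase 1, (Finset.bipartiteAbove (fun (h : Equiv.Perm Z) (z : Z) => h z = z) Zf h).card +
        (if PE p h then 1 else 0) = 2 := by
      intro h hh
      rw [Finset.mem_erase, hHs] at hh
      have hmem : ∀ y, h y = y → y ∈ Zf := fun y hy => (hZf y).mpr ⟨h, hh.2, hh.1, hy⟩
      by_cases hp : PE p h
      · obtain ⟨z, hz⟩ := hF.one h hh.2 hh.1 hp
        rw [if_pos hp]
        have : Finset.bipartiteAbove (fun (h : Equiv.Perm Z) (z : Z) => h z = z) Zf h = {z} := by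
          ext y
          rw [Finset.mem_bipartiteAbove, Finset.mem_singleton]
          constructor
          · rintro ⟨-, h5⟩
            exact (hz y).mp h5
          · intro h5
            have h6 := (hz y).mpr h5
            exact ⟨hmem y h6, h6⟩
        rw [this, Finset.card_singleton]
      · obtain ⟨z, w, hzw, hz⟩ := hF.two h hh.2 hp
        rw [if_neg hp]
        have : Finset.bipartiteAbove (fun (h : Equiv.Perm Z) (z : Z) => h z = z) Zf h = {z, w} := by
          ext y
          rw [Finset.mem_bipartiteAbove, Finset.mem_insert, Finset.mem_singleton]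
          constructor
          · rintro ⟨-, h5⟩
            exact (hz y).mp h5
          · intro h5
            have h6 := (hz y).mpr h5
            exact ⟨hmem y h6, h6⟩
        rw [this, Finset.card_pair hzw]
    have h4 := Finset.sum_congr (rfl : Hs.erase 1 = Hs.erase 1) h3
    rw [Finset.sum_add_distrib, Finset.sum_const, ← Finset.card_filter] at h4
    have h5 : ((Hs.erase 1).filter fun h => PE p h) = P := by
      ext h
      rw [Finset.mem_filter, Finset.mem_erase, hHs, hP]
      tauto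
    rw [h5, hPcard] at h4
    have h6 : (Hs.erase 1).card + 1 = N * (q * e) := by
      rw [← hcH]
      exact Finset.card_erase_add_one ((hHs 1).mpr H.one_mem)
    rw [smul_eq_mul] at h4
    omega
  -- the points of Om
  have hOsum : ∑ z ∈ Of, ((Hs.erase 1).filter fun h => h z = z).card + N = N * (q * e) := by
    have h1 : ∀ z ∈ Of, ((Hs.erase 1).filter fun h => h z = z).card + 1 = q * e := fun z hz => by
      rw [hst1 z, (hx z ((hOf' z).mp hz)).2]
    have h2 := Finset.sum_congr (rfl : Of = Of) h1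
    rw [Finset.sum_add_distrib, Finset.sum_const, Finset.sum_const, hOcard] at h2
    simpa using h2
  have hsplit := Finset.sum_sdiff (f := fun z => ((Hs.erase 1).filter fun h => h z = z).card) hOZ
  -- the other points
  obtain ⟨R, hR⟩ : ∃ R : Finset Z, R = Zf \ Of := ⟨_, rfl⟩
  rw [← hR] at hsplit
  have hRsum : ∑ z ∈ R, ((Hs.erase 1).filter fun h => h z = z).card + N * q + 2 = N * (q * e) + 2 * N := by
    have hq1 : N * (q - 1) + N = N * q := by
      obtain ⟨q', rfl⟩ : ∃ q', q = q' + 1 := ⟨q - 1, by omega⟩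
      simp only [Nat.add_sub_cancel]
      ring
    omega
  -- orbits
  have hRst : ∀ z ∈ R, ∀ h ∈ H, h z ∈ R := by
    intro z hz h hh
    rw [hR, Finset.mem_sdiff, hZf, hOf'] at hz ⊢
    obtain ⟨⟨g, hg, hg1, hgz⟩, hz2⟩ := hz
    refine ⟨⟨h * g * h⁻¹, H.mul_mem (H.mul_mem hh hg) (H.inv_mem hh), ?_, by simp [hgz]⟩, ?_⟩
    · intro h0
      apply hg1
      have : g = h⁻¹ * (h * g * h⁻¹) * h := by group
      rw [this, h0]
      group
    · rintro ⟨g', hg', hg1', ⟨k, hk⟩, hgz'⟩
      apply hz2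
      refine ⟨h⁻¹ * g' * h, H.mul_mem (H.mul_mem (H.inv_mem hh) hg') hh, ?_, ⟨k, ?_⟩, ?_⟩
      · intro h0
        apply hg1'
        have : g' = h * (h⁻¹ * g' * h) * h⁻¹ := by group
        rw [this, h0]
        group
      · have := conj_pow (i := p ^ k) (a := h⁻¹) (b := g')
        rw [inv_inv] at this
        rw [this, hk]
        group
      · rw [Equiv.Perm.mul_apply, Equiv.Perm.mul_apply, hgz']
        simp
  have horb : ∀ z ∈ R, ∃ O : Finset Z, O ⊆ R ∧ z ∈ O ∧ (∀ w ∈ O, ∃ h ∈ H, h z = w) ∧ (∀ h ∈ H, h z ∈ O) ∧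
      O.card * (St H z).ncard = N * (q * e) ∧
      ∑ w ∈ O, ((Hs.erase 1).filter fun h => h w = w).card + O.card = N * (q * e) ∧
      2 * O.card ≤ N * (q * e) := by
    intro z hz
    have hO : ∀ w, w ∈ Hs.image (fun h => h z) ↔ ∃ h ∈ H, h z = w := by
      intro w
      rw [Finset.mem_image]
      simp only [hHs]
    have hc1 : (Hs.image (fun h => h z)).card * (St H z).ncard = N * (q * e) := by
      rw [← hH, ← DCT_orb H hF.fin z]
      congr 1
      rw [← Set.ncard_coe_finset]
      congr 1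
      ext w
      exact hO w
    refine ⟨Hs.image (fun h => h z), ?_, (hO z).mpr ⟨1, H.one_mem, rfl⟩, fun w hw => (hO w).mp hw,
      fun h hh => (hO _).mpr ⟨h, hh, rfl⟩, hc1, ?_, ?_⟩
    · intro w hw
      obtain ⟨h, hh, rfl⟩ := (hO w).mp hw
      exact hRst z hz h hh
    · have h1 : ∀ w ∈ Hs.image (fun h => h z), ((Hs.erase 1).filter fun h => h w = w).card + 1 = (St H z).ncard := by
        intro w hw
        obtain ⟨h, hh, rfl⟩ := (hO w).mp hw
        rw [hst1, DCT_conj H z h hh]
      have h2 := Finset.sum_congr (rfl : Hs.image (fun h => h z) = Hs.image (fun h => h z)) h1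
      rw [Finset.sum_add_distrib, Finset.sum_const, Finset.sum_const, smul_eq_mul, smul_eq_mul, mul_one] at h2
      rw [h2, hc1]
    · have h1 : 2 ≤ (St H z).ncard := by
        rw [hR, Finset.mem_sdiff, hZf] at hz
        obtain ⟨⟨g, hg, hg1, hgz⟩, _⟩ := hz
        have h3 := hst1 z
        have h4 : 0 < ((Hs.erase 1).filter fun h => h z = z).card :=
          Finset.card_pos.mpr ⟨g, Finset.mem_filter.mpr ⟨Finset.mem_erase.mpr ⟨hg1, (hHs g).mpr hg⟩, hgz⟩⟩
        omega
      calc 2 * (Hs.image (fun h => h z)).card = (Hs.image (fun h => h z)).card * 2 := by ring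
        _ ≤ (Hs.image (fun h => h z)).card * (St H z).ncard := Nat.mul_le_mul_left _ h1
        _ = N * (q * e) := hc1
  -- R is not empty
  have hq2 : N * (q - 2) + 2 * N = N * q := by
    obtain ⟨q', rfl⟩ : ∃ q', q = q' + 2 := ⟨q - 2, by omega⟩
    simp only [Nat.add_sub_cancel]
    ring
  have hqe : N * q ≤ N * (q * e) := by
    refine Nat.mul_le_mul_left _ ?_
    exact Nat.le_mul_of_pos_right _ (by omega)
  have hRne : R.Nonempty := by
    rw [Finset.nonempty_iff_ne_empty]
    intro h0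
    rw [h0, Finset.sum_empty] at hRsum
    omega
  obtain ⟨z₀, hz₀⟩ := hRne
  obtain ⟨O, hO1, hO2, hO3, hO4, hO5, hO6, hO7⟩ := horb z₀ hz₀
  have hRO : R = O := by
    by_contra hne
    obtain ⟨z₁, hz₁, hz₁'⟩ : ∃ z₁ ∈ R, z₁ ∉ O := by
      by_contra hcon
      push Not at hcon
      exact hne (Finset.Subset.antisymm hcon hO1)
    obtain ⟨O', hP1, hP2, hP3, hP4, hP5, hP6, hP7⟩ := horb z₁ hz₁
    have hdis : Disjoint O O' := by
      rw [Finset.disjoint_left]
      intro w hw hw'
      obtain ⟨h, hh, rfl⟩ := hO3 w hw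
      obtain ⟨h', hh', hw2⟩ := hP3 _ hw'
      apply hz₁'
      have : z₁ = (h'⁻¹ * h) z₀ := by
        rw [Equiv.Perm.mul_apply, ← hw2]
        simp
      rw [this]
      exact hO4 _ (H.mul_mem (H.inv_mem hh') hh)
    have h1 : ∑ z ∈ O ∪ O', ((Hs.erase 1).filter fun h => h z = z).card ≤
        ∑ z ∈ R, ((Hs.erase 1).filter fun h => h z = z).card :=
      Finset.sum_le_sum_of_subset (Finset.union_subset hO1 hP1)
    rw [Finset.sum_union hdis] at h1
    omega
  rw [hRO] at hRsum
  refine ⟨(St H z₀).ncard, ?_⟩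
  have hOc2 : O.card = N * (q - 2) + 2 := by omega
  rw [← hOc2, mul_comm]
  exact hO5

end Pool.Agent.AX
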