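import Pool.Agent.helper64.AX.SpecD

/-!
# Project AX (MP_2e0e07_nt): row DFI
-/

set_option autoImplicit false

namespace Pool.Agent.AX

open Matrix

theorem DFI (hDSY : DSY_stmt) (hDOR : DOR_stmt) (hDCT : DCT_stmt) (hDAR : DAR_stmt) : DFI_stmt := by
  intro p hp Z H hp5 hF hpH hno
  obtain ⟨k, m, e, hk, he, hek, hOf, hOc, hH, hx⟩ := hDOR p Z H hF hpH
  have hm : 1 ≤ m := by
    by_contra hm0
    have hm1 : m = 0 := by omega
    subst hm1
    rw [zero_mul, add_zero] at hOc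
    obtain ⟨x, hx1⟩ := Set.ncard_eq_one.mp hOc
    have hxO : x ∈ Om p H := by
      rw [hx1]
      rfl
    obtain ⟨h, hh, hhx⟩ := hno x
    have h2 := (hDSY p Z H hF).2.2.1 x hxO h hh
    rw [hx1] at h2
    exact hhx h2
  have hq5 : 5 ≤ p ^ k := hp5.trans (Nat.le_self_pow (by omega) p)
  obtain ⟨c, hc⟩ := hDCT p Z H (p ^ k) e (1 + m * p ^ k) hF (by omega) he
    (by
      have : 1 ≤ m * p ^ k := Nat.mul_pos hm (by omega)
      omega) hOf hOc hH hx
  obtain ⟨h1, h2⟩ := hDAR (p ^ k) e m c hq5 he hek hm hc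
  subst h1
  have h3 : 1 + 1 * p ^ k = p ^ k + 1 := by ring
  rw [h3] at hOc hH
  exact ⟨k, e, hk, he, hek, h2, hOf, hOc, hH, hx⟩

end Pool.Agent.AX
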