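import Pool.Agent.helper64.AX.SpecD

/-!
# Project AX (MP_2e0e07_nt): row DTO (the torus generated by two unipotent elements)
-/

set_option autoImplicit false

namespace Pool.Agent.AX

open Matrix

theorem DTO_uu {κ : Type} [Field κ] (n : ℕ) :
    ((uu κ ^ n : GL (Fin 2) κ) : Matrix (Fin 2) (Fin 2) κ) = !![1, (n : κ); 0, 1] := by
  induction n with
  | zero =>
    ext i j
    fin_cases i <;> fin_cases j <;> simp
  | succ n ih =>
    rw [pow_succ, GeneralLinearGroup.coe_mul, ih]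
    have h : ((uu κ : GL (Fin 2) κ) : Matrix (Fin 2) (Fin 2) κ) = !![1, 1; 0, 1] := rfl
    rw [h]
    ext i j
    fin_cases i <;> fin_cases j <;> simp [Matrix.mul_apply, Fin.sum_univ_two, add_comm]

theorem DTO_ww {κ : Type} [Field κ] (n : ℕ) :
    ((ww κ ^ n : GL (Fin 2) κ) : Matrix (Fin 2) (Fin 2) κ) = !![1, 0; (n : κ), 1] := by
  induction n with
  | zero =>
    ext i j
    fin_cases i <;> fin_cases j <;> simp
  | succ n ih =>
    rw [pow_succ, GeneralLinearGroup.coe_mul, ih]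
    have h : ((ww κ : GL (Fin 2) κ) : Matrix (Fin 2) (Fin 2) κ) = !![1, 0; 1, 1] := rfl
    rw [h]
    ext i j
    fin_cases i <;> fin_cases j <;> simp [Matrix.mul_apply, Fin.sum_univ_two]

theorem DTO_T {p : ℕ} [Fact p.Prime] {κ : Type} [Field κ] [CharP κ p] (g b : ℕ) (hg : 1 ≤ g)
    (hgb : (g : κ) * (b : κ) = 1) :
    (uu κ ^ (g - 1) * ww κ * uu κ ^ (b + (p - 1)) * ww κ ^ ((p - 1) * g)) * uu κ =
      uu κ ^ g ^ 2 * (uu κ ^ (g - 1) * ww κ * uu κ ^ (b + (p - 1)) * ww κ ^ ((p - 1) * g)) := by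
  have hp : p.Prime := Fact.out
  have hp0 : ((p : ℕ) : κ) = 0 := CharP.cast_eq_zero κ p
  have h1 : ((g - 1 : ℕ) : κ) = (g : κ) - 1 := by
    rw [Nat.cast_sub hg]
    simp
  have h2 : ((p - 1 : ℕ) : κ) = -1 := by
    rw [Nat.cast_sub hp.one_le, hp0]
    simp
  have hT : ((uu κ ^ (g - 1) * ww κ * uu κ ^ (b + (p - 1)) * ww κ ^ ((p - 1) * g) : GL (Fin 2) κ) :
      Matrix (Fin 2) (Fin 2) κ) = !![(g : κ), 0; 0, (b : κ)] := by
    have hw : ((ww κ : GL (Fin 2) κ) : Matrix (Fin 2) (Fin 2) κ) = !![1, 0; 1, 1] := rfl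
    rw [GeneralLinearGroup.coe_mul, GeneralLinearGroup.coe_mul, GeneralLinearGroup.coe_mul, DTO_uu, DTO_uu,
      DTO_ww, hw, Nat.cast_add, Nat.cast_mul, h1, h2]
    ext i j
    fin_cases i <;> fin_cases j <;> simp [Matrix.mul_apply, Fin.sum_univ_two]
    · left
      linear_combination hgb
    · linear_combination hgb
    · linear_combination (-1 : κ) * hgb
  apply Units.ext
  change ((uu κ ^ (g - 1) * ww κ * uu κ ^ (b + (p - 1)) * ww κ ^ ((p - 1) * g) : GL (Fin 2) κ) :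
      Matrix (Fin 2) (Fin 2) κ) * ((uu κ : GL (Fin 2) κ) : Matrix (Fin 2) (Fin 2) κ) =
    ((uu κ ^ g ^ 2 : GL (Fin 2) κ) : Matrix (Fin 2) (Fin 2) κ) *
      ((uu κ ^ (g - 1) * ww κ * uu κ ^ (b + (p - 1)) * ww κ ^ ((p - 1) * g) : GL (Fin 2) κ) :
      Matrix (Fin 2) (Fin 2) κ)
  have hu : ((uu κ : GL (Fin 2) κ) : Matrix (Fin 2) (Fin 2) κ) = !![1, 1; 0, 1] := rfl
  rw [hT, hu, DTO_uu]
  ext i j
  fin_cases i <;> fin_cases j <;> simp [Matrix.mul_apply, Fin.sum_univ_two]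
  linear_combination (-(g : κ)) * hgb

theorem DTO (hPMK : PMK_stmt) : DTO_stmt := by
  intro p hpF κ _ _ H γ hu hw
  have hp : p.Prime := Fact.out
  have hp0 : ((p : ℕ) : κ) = 0 := CharP.cast_eq_zero κ p
  have hconj : ∀ (x : GL (Fin 2) κ) (n : ℕ), pm κ (γ * x * γ⁻¹) ^ n = pm κ (γ * x ^ n * γ⁻¹) := by
    intro x n
    rw [← map_pow, conj_pow]
  refine ⟨?_, ?_, ?_⟩
  · rw [hconj]
    have h1 : uu κ ^ p = 1 := by
      apply Units.ext
      change ((uu κ ^ p : GL (Fin 2) κ) : Matrix (Fin 2) (Fin 2) κ) = 1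
      rw [DTO_uu, hp0]
      ext i j
      fin_cases i <;> fin_cases j <;> simp
    rw [h1, mul_one, mul_inv_cancel, map_one]
  · intro h
    obtain ⟨c, hc⟩ := ((hPMK κ).1 _).mp h
    have h1 : ((uu κ : GL (Fin 2) κ) : Matrix (Fin 2) (Fin 2) κ) = c • 1 := by
      have h2 : uu κ = γ⁻¹ * (γ * uu κ * γ⁻¹) * γ := by group
      rw [h2, GeneralLinearGroup.coe_mul, GeneralLinearGroup.coe_mul, hc, Matrix.mul_smul, Matrix.mul_one,
        Matrix.smul_mul, ← GeneralLinearGroup.coe_mul, inv_mul_cancel]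
      rfl
    have h2 := congrFun (congrFun h1 0) 1
    have hu' : ((uu κ : GL (Fin 2) κ) : Matrix (Fin 2) (Fin 2) κ) = !![1, 1; 0, 1] := rfl
    rw [hu'] at h2
    simp at h2
  · intro g hg
    have hg1 : 1 ≤ g := by
      rcases Nat.eq_zero_or_pos g with h0 | h0
      · exact absurd (h0 ▸ dvd_zero p) hg
      · exact h0
    obtain ⟨b, hb⟩ : ∃ b : ℕ, (g : κ) * (b : κ) = 1 := by
      have hcop : Nat.Coprime g p := ((Nat.Prime.coprime_iff_not_dvd hp).mpr hg).symm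
      obtain ⟨b, _, hb⟩ := Nat.exists_mul_mod_eq_one_of_coprime hcop hp.one_lt
      refine ⟨b, ?_⟩
      have h1 : g * b = p * (g * b / p) + 1 := by
        have := Nat.div_add_mod (g * b) p
        rw [hb] at this
        exact this.symm
      rw [← Nat.cast_mul, h1, Nat.cast_add, Nat.cast_mul, hp0, zero_mul, zero_add, Nat.cast_one]
    obtain ⟨T, hT⟩ : ∃ T : GL (Fin 2) κ, T = uu κ ^ (g - 1) * ww κ * uu κ ^ (b + (p - 1)) *
      ww κ ^ ((p - 1) * g) := ⟨_, rfl⟩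
    have hTu : T * uu κ = uu κ ^ g ^ 2 * T := by
      rw [hT]
      exact DTO_T (p := p) g b hg1 hb
    refine ⟨pm κ (γ * T * γ⁻¹), ?_, ?_⟩
    · have h1 : pm κ (γ * T * γ⁻¹) = pm κ (γ * uu κ * γ⁻¹) ^ (g - 1) * pm κ (γ * ww κ * γ⁻¹) *
          pm κ (γ * uu κ * γ⁻¹) ^ (b + (p - 1)) * pm κ (γ * ww κ * γ⁻¹) ^ ((p - 1) * g) := by
        rw [hconj, hconj, hconj, ← map_mul, ← map_mul, ← map_mul, hT]
        congr 1
        group
      rw [h1]
      exact H.mul_mem (H.mul_mem (H.mul_mem (H.pow_mem hu _) hw) (H.pow_mem hu _)) (H.pow_mem hw _)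
    · rw [hconj, ← map_mul, ← map_inv, ← map_mul]
      congr 1
      have h2 : T * uu κ * T⁻¹ = uu κ ^ g ^ 2 := by
        rw [hTu, mul_inv_cancel_right]
      rw [← h2]
      group

end Pool.Agent.AX
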