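import Pool.Agent.helper46.AX.SpecT

/-!
# Project AX (MP_2e0e07_nt): row TAP
-/

set_option autoImplicit false

namespace Pool.Agent.AX

open Matrix Polynomial Pool.Agent.GO Pool.Agent.AR Pool.Agent.RG Pool.Agent.HZ Pool.Agent.DS
  MeasureTheory

universe u v

/-- the coefficients of the characteristic polynomial are continuous -/
theorem TAP_coeff {R : Type*} [CommRing R] [TopologicalSpace R] [IsTopologicalRing R] {m : ℕ}
    (k : ℕ) : Continuous fun A : Matrix (Fin m) (Fin m) R => A.charpoly.coeff k := by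
  have h1 : (fun A : Matrix (Fin m) (Fin m) R => A.charpoly.coeff k) = fun A =>
      MvPolynomial.eval (fun x : Fin m × Fin m => A x.1 x.2)
        (MvPolynomial.map (Int.castRingHom R) ((Matrix.charpoly.univ ℤ (Fin m)).coeff k)) := by
    funext A
    have h2 := Matrix.charpoly.univ_coeff_eval₂Hom (n := Fin m) (Int.castRingHom R)
      (fun x : Fin m × Fin m => A x.1 x.2) k
    rw [MvPolynomial.coe_eval₂Hom, MvPolynomial.eval₂_eq_eval_map] at h2
    rw [h2]
    rfl
  rw [h1]
  refine (MvPolynomial.continuous_eval _).comp ?_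
  exact continuous_pi fun x => (continuous_apply x.2).comp (continuous_apply x.1)

theorem TAP_det {Γ F : Type*} [Group Γ] [Field F] (ρ : Γ →* Matrix (Fin 2) (Fin 2) F) (g : Γ) :
    (ρ g).det ≠ 0 := by
  intro h0
  have h2 := congrArg Matrix.det (hom_mul_inv' ρ g)
  rw [Matrix.det_mul, h0, zero_mul, Matrix.det_one] at h2
  exact zero_ne_one h2

theorem TAP_tt {Γ F : Type*} [Group Γ] [TopologicalSpace Γ] [NormedField F]
    (ρ : Γ →* Matrix (Fin 2) (Fin 2) F) (hρ : Continuous ρ) : Continuous (tt ρ) :=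
  ((Continuous.matrix_trace hρ).pow 2).div (Continuous.matrix_det hρ) (TAP_det ρ)

theorem TAP : TAP_stmt.{u} := by
  intro Γ Place _ _ _ frob F _ r n V ρ hV hρ S T M hM ε hε g hg
  classical
  have h1 : ∀ᶠ s in nhds g, ‖tt ρ s - tt ρ g‖ < ε := by
    have h2 : Continuous fun s => ‖tt ρ s - tt ρ g‖ := ((TAP_tt ρ hρ).sub continuous_const).norm
    have h3 := h2.tendsto g
    simp only [sub_self, norm_zero] at h3
    exact h3.eventually_lt_const hε
  have h2 : ∀ᶠ s in nhds g, ∀ (q : {q // q ∈ M.primeFactors}) (hq : Fact q.1.Prime) (i : Fin r)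
      (k : Fin (n i + 1)), (q.1 : ℤ_[q.1]) ^ M.factorization q.1 ∣
          (V q.1 i s).charpoly.coeff k - (V q.1 i g).charpoly.coeff k := by
    rw [Filter.eventually_all]
    intro q
    rw [Filter.eventually_all]
    intro hq
    rw [Filter.eventually_all]
    intro i
    rw [Filter.eventually_all]
    intro k
    have hc : Continuous fun s => ‖(V q.1 i s).charpoly.coeff k - (V q.1 i g).charpoly.coeff k‖ :=
      (((TAP_coeff (k : ℕ)).comp (hV q.1 i)).sub continuous_const).norm
    have h3 := hc.tendsto g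
    simp only [sub_self, norm_zero] at h3
    have hpos : (0 : ℝ) < (q.1 : ℝ) ^ (-(M.factorization q.1 : ℤ)) :=
      zpow_pos (by exact_mod_cast hq.out.pos) _
    refine (h3.eventually_lt_const hpos).mono ?_
    intro s hs
    have h4 := (PadicInt.norm_le_pow_iff_mem_span_pow _ _).mp hs.le
    exact Ideal.mem_span_singleton.mp h4
  obtain ⟨s, ⟨v, hv, hvT, hs⟩, hs1, hs2⟩ :=
    ((mem_closure_iff_frequently.mp hg).and_eventually (h1.and h2)).exists
  refine ⟨v, hv, hvT, s, hs, hs1, ?_⟩
  intro q hq hqM i k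
  by_cases hk : k < n i + 1
  · have h3 := hs2 ⟨q, Nat.mem_primeFactors.mpr ⟨hq.out, hqM, by omega⟩⟩ hq i ⟨k, hk⟩
    exact h3
  · have h3 : ∀ x : Γ, (V q i x).charpoly.coeff k = 0 := by
      intro x
      apply Polynomial.coeff_eq_zero_of_natDegree_lt
      rw [Matrix.charpoly_natDegree_eq_dim, Fintype.card_fin]
      omega
    rw [h3, h3, sub_self]
    exact dvd_zero _

end Pool.Agent.AX
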