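import Pool.Agent.helper46.AX.SpecT

/-!
# Project AX (MP_2e0e07_nt): row TDC
-/

set_option autoImplicit false

namespace Pool.Agent.AX

open Matrix Polynomial Pool.Agent.GO Pool.Agent.AR Pool.Agent.RG Pool.Agent.HZ Pool.Agent.DS
  MeasureTheory

universe u v

theorem TDC_tt {Γ E F : Type*} [Group Γ] [Field E] [Field F] (ι : E →+* F)
    (ρ : Γ →* Matrix (Fin 2) (Fin 2) F) (s : Γ) (Q : E[X]) (h : (ρ s).charpoly = Q.map ι) :
    ι (Q.coeff 1 ^ 2 / Q.coeff 0) = tt ρ s := by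
  have h1 : (ρ s).charpoly.coeff 1 = -(ρ s).trace := by
    rw [Matrix.charpoly_fin_two]
    simp [coeff_X, coeff_C]
  have h0 : (ρ s).charpoly.coeff 0 = (ρ s).det := by
    rw [Matrix.charpoly_fin_two]
    simp
  rw [h, Polynomial.coeff_map] at h1 h0
  unfold tt
  rw [map_div₀, map_pow, h1, h0, neg_pow_two]

theorem TDC : TDC_stmt.{u} := by
  intro hTPC hTCG hTAP Γ Place E _ _ _ _ _ _ μ _ frob _ F _ r n P Q ι V ρ hV hρ hPV hQ hdet
  classical
  obtain ⟨S, D, hS, hD⟩ := hdet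
  choose M hM0 hM using fun m : ℕ => hD (1 / ((m : ℝ) + 1)) Nat.one_div_pos_of_nat
  obtain ⟨Tρ, hTρ, hTρ'⟩ := hQ
  choose TV hTV hTV' using hPV
  -- the bad places for the modulus M m
  let B : ℕ → Set Place := fun m => Tρ ∪ ⋃ (q : {q // q ∈ (M m).primeFactors}) (i : Fin r),
    @TV q.1 ⟨Nat.prime_of_mem_primeFactors q.2⟩ i
  have hB : ∀ m, (B m).Finite := by
    intro m
    refine hTρ.union (Set.finite_iUnion fun q => Set.finite_iUnion fun i => ?_)
    exact @hTV q.1 ⟨Nat.prime_of_mem_primeFactors q.2⟩ i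
  let T : ℕ → Set Place := fun m => ⋃ k : {k // k ∈ Finset.range (m + 1)}, B k.1
  have hT : ∀ m, (T m).Finite := fun m => Set.finite_iUnion fun k => hB k.1
  have hTmono : Monotone T := by
    intro a b hab v hv
    obtain ⟨k, hk⟩ := Set.mem_iUnion.mp hv
    exact Set.mem_iUnion.mpr ⟨⟨k.1, Finset.mem_range.mpr
      (by have := Finset.mem_range.mp k.2; omega)⟩, hk⟩
  refine ⟨D, ⋂ m, closure {s | ∃ v ∈ S, v ∉ T m ∧ s ∈ frob v}, isClosed_iInter fun _ => isClosed_closure,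
    hTPC μ frob S T hS hT hTmono, ?_⟩
  intro g hg hgg
  by_contra hcon
  push Not at hcon
  -- the values of `V` agree
  have hVg : ∀ x y (q : ℕ) [Fact q.Prime] (i : Fin r), V q i (g x) = V q i (g y) := by
    intro x y q hq i
    have h1 := hgg x y
    unfold kerAll at h1
    rw [Subgroup.mem_iInf] at h1
    have h2 := h1 q
    rw [Subgroup.mem_iInf] at h2
    have h3 := h2 hq
    unfold kerV at h3
    rw [Subgroup.mem_iInf] at h3
    have h4 : V q i (g x * (g y)⁻¹) = 1 := h3 i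
    calc V q i (g x) = V q i (g x * (g y)⁻¹ * g y) := by rw [inv_mul_cancel_right]
      _ = V q i (g y) := by rw [map_mul, h4, one_mul]
  have hkey : ∀ m : ℕ, ∃ x y, x ≠ y ∧ ‖tt ρ (g x) - tt ρ (g y)‖ < 3 / ((m : ℝ) + 1) := by
    intro m
    have hε : (0 : ℝ) < 1 / ((m : ℝ) + 1) := Nat.one_div_pos_of_nat
    have h1 : ∀ x, ∃ v ∈ S, v ∉ T m ∧ ∃ s ∈ frob v, ‖tt ρ s - tt ρ (g x)‖ < 1 / ((m : ℝ) + 1) ∧
        ∀ (q : ℕ) [Fact q.Prime], q ∣ M m → ∀ (i : Fin r) (k : ℕ),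
          (q : ℤ_[q]) ^ (M m).factorization q ∣
            (V q i s).charpoly.coeff k - (V q i (g x)).charpoly.coeff k := fun x =>
      hTAP frob V ρ hV hρ S (T m) (M m) (hM0 m) _ hε (g x) (Set.mem_iInter.mp (hg x) m)
    choose v hvS hvT s hs hs1 hs2 using h1
    have hvB : ∀ x, v x ∉ B m := fun x hx => hvT x
      (Set.mem_iUnion.mpr ⟨⟨m, Finset.mem_range.mpr (by omega)⟩, hx⟩)
    have hvρ : ∀ x, v x ∉ Tρ := fun x hx => hvB x (Or.inl hx)
    have hdvd : ∀ a b i k, (M m : ℤ) ∣ (P i (v a)).coeff k - (P i (v b)).coeff k := by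
      intro a b i k
      refine hTCG (M m) _ (hM0 m) ?_
      intro q hq hqM
      have hmem : q ∈ (M m).primeFactors := Nat.mem_primeFactors.mpr ⟨hq.out, hqM, (hM0 m).ne'⟩
      have hvq : ∀ x, v x ∉ TV q i := by
        intro x hx
        apply hvB x
        refine Or.inr (Set.mem_iUnion.mpr ⟨⟨q, hmem⟩, Set.mem_iUnion.mpr ⟨i, ?_⟩⟩)
        exact hx
      have h3 : ∀ x, (((P i (v x)).coeff k : ℤ) : ℤ_[q]) = (V q i (s x)).charpoly.coeff k := by
        intro x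
        rw [hTV' q i (v x) (hvq x) (s x) (hs x), Polynomial.coeff_map]
        rfl
      have h4 : (((P i (v a)).coeff k - (P i (v b)).coeff k : ℤ) : ℤ_[q]) =
          ((V q i (s a)).charpoly.coeff k - (V q i (g a)).charpoly.coeff k) -
          ((V q i (s b)).charpoly.coeff k - (V q i (g b)).charpoly.coeff k) := by
        rw [Int.cast_sub, h3, h3, hVg a b q i]
        ring
      rw [h4]
      exact dvd_sub (hs2 a q hqM i k) (hs2 b q hqM i k)
    obtain ⟨x, y, hxy, hxy2⟩ := hM m v hvS hdvd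
    have hx : ∀ z, ι (tv Q (v z)) = tt ρ (s z) := fun z =>
      TDC_tt ι ρ (s z) (Q (v z)) (hTρ' (v z) (hvρ z) (s z) (hs z))
    rw [hx, hx] at hxy2
    refine ⟨x, y, hxy, ?_⟩
    have h5 : tt ρ (g x) - tt ρ (g y) = (tt ρ (s x) - tt ρ (s y)) - (tt ρ (s x) - tt ρ (g x)) +
        (tt ρ (s y) - tt ρ (g y)) := by ring
    have h6 := hs1 x
    have h7 := hs1 y
    calc ‖tt ρ (g x) - tt ρ (g y)‖ ≤ ‖tt ρ (s x) - tt ρ (s y)‖ + ‖tt ρ (s x) - tt ρ (g x)‖ +
          ‖tt ρ (s y) - tt ρ (g y)‖ := by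
          rw [h5]
          exact (norm_add_le _ _).trans (add_le_add_left (norm_sub_le _ _) _)
      _ < 1 / ((m : ℝ) + 1) + 1 / ((m : ℝ) + 1) + 1 / ((m : ℝ) + 1) := by linarith
      _ = 3 / ((m : ℝ) + 1) := by ring
  -- the minimum of the distances
  choose x y hxy hlt using hkey
  obtain ⟨c, hc, hc'⟩ : ∃ c : ℝ, 0 < c ∧ ∀ a b, a ≠ b → c ≤ ‖tt ρ (g a) - tt ρ (g b)‖ := by
    let W : Finset (Fin (D + 1) × Fin (D + 1)) := Finset.univ.filter fun z => z.1 ≠ z.2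
    have hW : W.Nonempty := ⟨(x 0, y 0), Finset.mem_filter.mpr ⟨Finset.mem_univ _, hxy 0⟩⟩
    obtain ⟨z, hz, hz'⟩ := W.exists_min_image (fun z => ‖tt ρ (g z.1) - tt ρ (g z.2)‖) hW
    refine ⟨_, norm_pos_iff.mpr (sub_ne_zero.mpr (hcon z.1 z.2 (Finset.mem_filter.mp hz).2)), ?_⟩
    intro a b hab
    exact hz' (a, b) (Finset.mem_filter.mpr ⟨Finset.mem_univ _, hab⟩)
  obtain ⟨m, hm⟩ := exists_nat_gt (3 / c)
  have h8 := (hc' (x m) (y m) (hxy m)).trans_lt (hlt m)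
  have h9 : (0 : ℝ) < (m : ℝ) + 1 := by positivity
  rw [lt_div_iff₀ h9] at h8
  rw [div_lt_iff₀ hc] at hm
  nlinarith

end Pool.Agent.AX
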