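import Pool.Agent.helper46.AX.SpecT
import Pool.Agent.helper21.RG.TF

/-!
# Project AX (MP_2e0e07_nt): row TNF
-/

set_option autoImplicit false

namespace Pool.Agent.AX

open Matrix Polynomial Pool.Agent.GO Pool.Agent.AR Pool.Agent.RG Pool.Agent.HZ Pool.Agent.DS
  MeasureTheory

universe u v

theorem TNF : TNF_stmt.{v} := by
  intro Γ _ _ _ _ _ _ μ _ Ω _ _ _ _ _ ρ hρ hirr X hX
  classical
  by_contra hcon
  have hft : Algebra.FiniteType Ω (alg ρ) := finiteType_alg ρ
  have hnoeth : IsNoetherianRing (alg ρ) := Algebra.FiniteType.isNoetherianRing Ω _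
  obtain ⟨U, hU, hU2⟩ := exists_component μ (alg ρ) (fun f hf => continuous_alg ρ hρ hf)
    (fun f hf h => alg_lt ρ h hf)
  have hf : (fun g => (X * ρ g).trace) ∈ alg ρ := by
    have h1 : (fun g => (X * ρ g).trace) = ∑ i, ∑ j, X i j • fun g => ρ g j i := by
      funext g
      rw [Finset.sum_apply]
      refine Finset.sum_congr rfl fun i _ => ?_
      rw [Finset.sum_apply]
      rw [Matrix.diag_apply, Matrix.mul_apply]
      rfl
    rw [h1]
    exact Subalgebra.sum_mem _ fun i _ => Subalgebra.sum_mem _ fun j _ =>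
      Subalgebra.smul_mem _ (coef_mem ρ j i) _
  have hfin : Finite (Γ ⧸ U) := Subgroup.quotient_finite_of_isOpen U hU
  have hex : ∃ q : Γ ⧸ U, μ ({g | (X * ρ g).trace = 0} ∩ {g | q.out⁻¹ * g ∈ U}) ≠ 0 := by
    by_contra h0
    push Not at h0
    apply hcon
    have h1 : μ (⋃ q : Γ ⧸ U, ({g | (X * ρ g).trace = 0} ∩ {g | q.out⁻¹ * g ∈ U})) = 0 :=
      measure_iUnion_null h0
    refine measure_mono_null ?_ h1
    intro g hg
    refine Set.mem_iUnion.mpr ⟨(g : Γ ⧸ U), hg, ?_⟩
    show (((g : Γ ⧸ U)).out)⁻¹ * g ∈ U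
    exact QuotientGroup.eq.mp (QuotientGroup.out_eq' (g : Γ ⧸ U))
  obtain ⟨q, hq⟩ := hex
  obtain ⟨y, hy⟩ : ∃ y, y = q.out := ⟨_, rfl⟩
  rw [← hy] at hq
  have h4 := hU2 _ hf y hq
  have hspan := span_top_of_irred (ρ.comp U.subtype) (hirr U hU)
  have h5 : ∀ M : Matrix (Fin 2) (Fin 2) Ω, (X * ρ y * M).trace = 0 := by
    intro M
    have hM : M ∈ Submodule.span Ω (Set.range (ρ.comp U.subtype)) := by rw [hspan]; trivial
    induction hM using Submodule.span_induction with
    | mem M hM =>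
      obtain ⟨u, rfl⟩ := hM
      have h6 := h4 (y * u) (by rw [inv_mul_cancel_left]; exact u.2)
      have h7 : (X * ρ (y * u)).trace = 0 := h6
      rwa [map_mul, ← Matrix.mul_assoc] at h7
    | zero => rw [mul_zero, Matrix.trace_zero]
    | add M N _ _ hM hN => rw [mul_add, Matrix.trace_add, hM, hN, add_zero]
    | smul c M _ hM => rw [mul_smul_comm, Matrix.trace_smul, hM, smul_zero]
  apply hX
  have h6 : X * ρ y = 0 := by
    ext i j
    have h7 := h5 (Matrix.single j i 1)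
    rw [Matrix.trace_mul_single] at h7
    simpa using h7
  have h7 : X = X * ρ y * ρ y⁻¹ := by
    rw [Matrix.mul_assoc, ← map_mul, mul_inv_cancel, map_one, Matrix.mul_one]
  rw [h7, h6, Matrix.zero_mul]

end Pool.Agent.AX
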